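import Mathlib

open Set Filter Topology MeasureTheory

namespace Pool.Agent.Results.MP_8df504_an.Q1False

/-- continuous piecewise affine self-maps of the unit interval with finitely many pieces -/
def BrokenLinear (T : ℝ → ℝ) : Prop :=
  ContinuousOn T (Icc 0 1) ∧ MapsTo T (Icc 0 1) (Icc 0 1) ∧
    ∃ (m : ℕ) (a : Fin (m + 1) → ℝ), StrictMono a ∧ a 0 = 0 ∧ a (Fin.last m) = 1 ∧
      ∀ j : Fin m, ∃ c d : ℝ, ∀ x ∈ Icc (a j.castSucc) (a j.succ), T x = c * x + d

/-- proportion of the first N iterates lying in R -/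
noncomputable def avg (T : ℝ → ℝ) (R : Set ℝ) (p : ℝ) (N : ℕ) : ℝ :=
  (1 / (N : ℝ)) * ∑ i ∈ Finset.Icc 1 N, R.indicator (fun _ => (1 : ℝ)) (T^[i] p)

noncomputable def T0 (x : ℝ) : ℝ := max (x / 2) ((3 * x - 1) / 2)

def S : Set ℕ := {i | ∃ j : ℕ, 4 ^ j < i ∧ i ≤ 2 * 4 ^ j}

def R0 : Set ℝ := ⋃ k ∈ S, Ioc (1 / 4 / 2 ^ k : ℝ) (1 / 2 / 2 ^ k)

lemma T0_small {x : ℝ} (h : x ≤ 1 / 2) : T0 x = x / 2 := by
  unfold T0; apply max_eq_left; linarith

lemma T0_big {x : ℝ} (h : 1 / 2 ≤ x) : T0 x = (3 * x - 1) / 2 := by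
  unfold T0; apply max_eq_right; linarith

lemma iter {p : ℝ} (h0 : 0 ≤ p) (h : p ≤ 1 / 2) (i : ℕ) : T0^[i] p = p / 2 ^ i := by
  induction i with
  | zero => simp
  | succ i ih =>
    rw [Function.iterate_succ_apply', ih, T0_small, pow_succ]
    · field_simp
    · have : (1 : ℝ) ≤ 2 ^ i := one_le_pow₀ (by norm_num)
      exact (div_le_self h0 this).trans h

lemma memR {p : ℝ} (h0 : 1 / 4 < p) (h : p ≤ 1 / 2) (i : ℕ) : p / 2 ^ i ∈ R0 ↔ i ∈ S := by
  constructor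
  · intro hm
    simp only [R0, mem_iUnion] at hm
    obtain ⟨k, hk, h1, h2⟩ := hm
    have hi : (0 : ℝ) < 2 ^ i := by positivity
    have hk' : (0 : ℝ) < 2 ^ k := by positivity
    rw [div_lt_div_iff₀ hk' hi] at h1
    rw [div_le_div_iff₀ hi hk'] at h2
    have a1 : (2 : ℝ) ^ i < 2 ^ (k + 1) := by rw [pow_succ]; nlinarith
    have a2 : (2 : ℝ) ^ k < 2 ^ (i + 1) := by rw [pow_succ]; nlinarith
    have b1 := (pow_lt_pow_iff_right₀ (by norm_num : (1 : ℝ) < 2)).1 a1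
    have b2 := (pow_lt_pow_iff_right₀ (by norm_num : (1 : ℝ) < 2)).1 a2
    have : i = k := by omega
    rwa [this]
  · intro hi
    simp only [R0, mem_iUnion]
    have hi' : (0 : ℝ) < 2 ^ i := by positivity
    exact ⟨i, hi, div_lt_div_of_pos_right h0 hi', div_le_div_of_nonneg_right h hi'.le⟩

open Classical in
noncomputable def cnt (N : ℕ) : ℝ := ∑ i ∈ Finset.Icc 1 N, if i ∈ S then (1 : ℝ) else 0

lemma avg_eq {p : ℝ} (h0 : 1 / 4 < p) (h : p ≤ 1 / 2) (N : ℕ) :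
    avg T0 R0 p N = (1 / (N : ℝ)) * cnt N := by
  unfold avg cnt
  congr 1
  refine Finset.sum_congr rfl fun i _ => ?_
  rw [iter (by linarith) h]
  by_cases hi : i ∈ S
  · rw [if_pos hi, indicator_of_mem ((memR h0 h i).2 hi)]
  · rw [if_neg hi, indicator_of_notMem (fun hh => hi ((memR h0 h i).1 hh))]

open Classical in
lemma cnt_two (N : ℕ) : cnt (2 * N) = cnt N + ∑ i ∈ Finset.Ioc N (2 * N), if i ∈ S then (1 : ℝ) else 0 := by
  unfold cnt
  rw [← Finset.sum_union]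
  · congr 1
    ext i
    simp only [Finset.mem_Icc, Finset.mem_union, Finset.mem_Ioc]
    omega
  · rw [Finset.disjoint_left]
    intro i h1 h2
    simp only [Finset.mem_Icc, Finset.mem_Ioc] at h1 h2
    omega

lemma cnt_in (j : ℕ) : cnt (2 * 4 ^ j) = cnt (4 ^ j) + (4 ^ j : ℕ) := by
  rw [cnt_two]
  congr 1
  rw [Finset.sum_congr rfl (g := fun _ => (1 : ℝ))]
  · simp only [Finset.sum_const, Nat.card_Ioc, nsmul_eq_mul, mul_one]
    congr 1; omega
  · intro i hi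
    rw [Finset.mem_Ioc] at hi
    exact if_pos ⟨j, hi.1, hi.2⟩

lemma cnt_out (j : ℕ) : cnt (2 * (2 * 4 ^ j)) = cnt (2 * 4 ^ j) := by
  rw [cnt_two (2 * 4 ^ j), Finset.sum_eq_zero, add_zero]
  intro i hi
  rw [Finset.mem_Ioc] at hi
  refine if_neg ?_
  rintro ⟨l, h1, h2⟩
  have a1 : 4 ^ l < 4 ^ (j + 1) := by rw [pow_succ]; omega
  have a2 : 4 ^ j < 4 ^ l := by omega
  have b1 := (Nat.pow_lt_pow_iff_right (by norm_num : 1 < 4)).1 a1
  have b2 := (Nat.pow_lt_pow_iff_right (by norm_num : 1 < 4)).1 a2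
  omega

lemma no_lim : ¬ ∃ L, Tendsto (fun N : ℕ => (1 / (N : ℝ)) * cnt N) atTop (𝓝 L) := by
  rintro ⟨L, hL⟩
  have t1 : Tendsto (fun j : ℕ => 4 ^ j) atTop atTop := tendsto_pow_atTop_atTop_of_one_lt (by norm_num)
  have t2 : Tendsto (fun j : ℕ => 2 * 4 ^ j) atTop atTop :=
    tendsto_atTop_mono (fun j => by omega) t1
  have t3 : Tendsto (fun j : ℕ => 2 * (2 * 4 ^ j)) atTop atTop :=
    tendsto_atTop_mono (fun j => by omega) t1
  have l1 := hL.comp t1
  have l2 := hL.comp t2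
  have l3 := hL.comp t3
  have e1 : Tendsto (fun _ : ℕ => (1 : ℝ)) atTop (𝓝 (2 * L - L)) := by
    refine ((l2.const_mul 2).sub l1).congr fun j => ?_
    simp only [Function.comp]
    rw [cnt_in]
    have : (0 : ℝ) < 4 ^ j := by positivity
    push_cast
    field_simp
    ring
  have e2 : Tendsto (fun _ : ℕ => (0 : ℝ)) atTop (𝓝 (2 * L - L)) := by
    refine ((l3.const_mul 2).sub l2).congr fun j => ?_
    simp only [Function.comp]
    rw [cnt_out]
    have : (0 : ℝ) < 4 ^ j := by positivity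
    push_cast
    field_simp
    ring
  have a := tendsto_nhds_unique e1 tendsto_const_nhds
  have b := tendsto_nhds_unique e2 tendsto_const_nhds
  linarith

theorem result : ∃ (T : ℝ → ℝ) (R : Set ℝ), BrokenLinear T ∧ BijOn T (Icc 0 1) (Icc 0 1) ∧
    R ⊆ Icc 0 1 ∧ MeasurableSet R ∧
    0 < volume {p ∈ Icc (0 : ℝ) 1 | ¬ ∃ L, Tendsto (avg T R p) atTop (𝓝 L)} := by
  have hc : Continuous T0 := by unfold T0; fun_prop
  have hmaps : MapsTo T0 (Icc 0 1) (Icc 0 1) := by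
    intro x hx
    rcases le_total x (1 / 2) with h | h
    · rw [T0_small h]; constructor <;> linarith [hx.1, hx.2]
    · rw [T0_big h]; constructor <;> linarith [hx.1, hx.2]
  have hsm : StrictMono T0 := by
    intro x y hxy
    unfold T0
    apply max_lt_max <;> linarith
  refine ⟨T0, R0, ⟨hc.continuousOn, hmaps, 2, ![0, 1 / 2, 1], ?_, rfl, rfl, ?_⟩,
    ⟨hmaps, hsm.injective.injOn, ?_⟩, ?_, ?_, ?_⟩
  · rw [Fin.strictMono_iff_lt_succ]
    intro i; fin_cases i <;> simp <;> norm_num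
  · intro j
    fin_cases j
    · refine ⟨1 / 2, 0, fun x hx => ?_⟩
      rw [T0_small (by simpa using hx.2)]; ring
    · refine ⟨3 / 2, -1 / 2, fun x hx => ?_⟩
      rw [T0_big (by simpa using hx.1)]; ring
  · have h0 : T0 0 = 0 := by rw [T0_small (by norm_num)]; norm_num
    have h1 : T0 1 = 1 := by rw [T0_big (by norm_num)]; norm_num
    have := intermediate_value_Icc (zero_le_one' ℝ) hc.continuousOn
    rwa [h0, h1] at this
  · intro x hx
    simp only [R0, mem_iUnion] at hx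
    obtain ⟨k, -, h1, h2⟩ := hx
    have hk : (1 : ℝ) ≤ 2 ^ k := one_le_pow₀ (by norm_num)
    have : (0 : ℝ) < 1 / 4 / 2 ^ k := by positivity
    have h3 : (1 / 2 / 2 ^ k : ℝ) ≤ 1 / 2 := div_le_self (by norm_num) hk
    constructor <;> linarith
  · exact MeasurableSet.biUnion (to_countable _) fun _ _ => measurableSet_Ioc
  · refine lt_of_lt_of_le ?_ (measure_mono (s := Ioc (1 / 4 : ℝ) (1 / 2)) ?_)
    · rw [Real.volume_Ioc]; norm_num
    · intro p hp
      refine ⟨⟨by linarith [hp.1], by linarith [hp.2]⟩, ?_⟩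
      have : avg T0 R0 p = fun N : ℕ => (1 / (N : ℝ)) * cnt N := funext (avg_eq hp.1 hp.2)
      rw [this]
      exact no_lim

end Pool.Agent.Results.MP_8df504_an.Q1False
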